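import Mathlib

/-!
# Optimal potentials for Schroedinger eigenvalues have a bounded set of finiteness

Definitions and statements of the parts of the proof (project OP, helper315).
-/

set_option autoImplicit false

open MeasureTheory Filter Topology
open scoped ContDiff ENNReal

namespace Pool.Agent.Y315.OP

/-- the space `ℝ^d` -/
abbrev E (d : ℕ) := EuclideanSpace ℝ (Fin d)

/-- test functions -/
def TF {d : ℕ} (φ : E d → ℝ) : Prop := ContDiff ℝ ∞ φ ∧ HasCompactSupport φ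

/-- `g` is the weak gradient of `u` -/
def WGrad {d : ℕ} (u : E d → ℝ) (g : E d → E d) : Prop :=
  ∀ φ : E d → ℝ, TF φ → ∀ v : E d,
    ∫ x, u x * fderiv ℝ φ x v = - ∫ x, inner ℝ (g x) v * φ x

/-- `u` belongs to `H¹_V`, with weak gradient `g` -/
structure InH {d : ℕ} (V : E d → ℝ≥0∞) (u : E d → ℝ) (g : E d → E d) : Prop where
  mu : MemLp u 2
  mg : MemLp g 2
  wg : WGrad u g
  fin : ∫⁻ x, V x * ‖u x‖ₑ ^ 2 < ⊤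

/-- the square of the `L²` norm -/
noncomputable def sq {d : ℕ} (u : E d → ℝ) : ℝ≥0∞ := ∫⁻ x, ‖u x‖ₑ ^ 2

/-- the quadratic form `∫ |∇u|² + ∫ V u²` -/
noncomputable def energy {d : ℕ} (V : E d → ℝ≥0∞) (u : E d → ℝ) (g : E d → E d) : ℝ≥0∞ :=
  (∫⁻ x, ‖g x‖ₑ ^ 2) + ∫⁻ x, V x * ‖u x‖ₑ ^ 2

/-- the combination `∑ c_i u_i` -/
def lc {d k : ℕ} (c : Fin k → ℝ) (u : Fin k → E d → ℝ) : E d → ℝ := fun x => ∑ i, c i * u i x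

/-- the combination `∑ c_i g_i` -/
def lcg {d k : ℕ} (c : Fin k → ℝ) (g : Fin k → E d → E d) : E d → E d :=
  fun x => ∑ i, c i • g i x

/-- the `k`-th eigenvalue of `-Δ + V`, by the min-max formula -/
noncomputable def lam {d : ℕ} (k : ℕ) (V : E d → ℝ≥0∞) : ℝ≥0∞ :=
  sInf {L | ∃ (u : Fin k → E d → ℝ) (g : Fin k → E d → E d),
    (∀ i, InH V (u i) (g i)) ∧ (∀ c : Fin k → ℝ, c ≠ 0 → sq (lc c u) ≠ 0) ∧
    ∀ c : Fin k → ℝ, energy V (lc c u) (lcg c g) ≤ L * sq (lc c u)}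

/-- the integral of `V ^ (-p)` -/
noncomputable def mass {d : ℕ} (p : ℝ) (V : E d → ℝ≥0∞) : ℝ≥0∞ := ∫⁻ x, (V x) ^ (-p)

/-- `V` minimizes the `k`-th eigenvalue among the potentials with `∫ V ^ (-p) ≤ 1` -/
def Optimal {d : ℕ} (p : ℝ) (k : ℕ) (V : E d → ℝ≥0∞) : Prop :=
  Measurable V ∧ mass p V ≤ 1 ∧
    ∀ W : E d → ℝ≥0∞, Measurable W → mass p W ≤ 1 → lam k V ≤ lam k W

/-- the weak eigenvalue equation -/
def Eig {d : ℕ} (V : E d → ℝ≥0∞) (ν : ℝ) (u : E d → ℝ) (g : E d → E d) : Prop :=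
  ∀ (φ : E d → ℝ) (γ : E d → E d), InH V φ γ →
    (∫ x, inner ℝ (g x) (γ x)) + (∫ x, (V x).toReal * (u x * φ x)) = ν * ∫ x, u x * φ x

/-- the Laplace operator -/
noncomputable def lap {d : ℕ} (ψ : E d → ℝ) (x : E d) : ℝ :=
  ∑ i : Fin d, fderiv ℝ (fun y => fderiv ℝ ψ y (EuclideanSpace.single i 1)) x
    (EuclideanSpace.single i 1)

/-- the mollification `∫ χ(x - y) u(y) dy` -/
noncomputable def mol {d : ℕ} (χ : E d → ℝ) (u : E d → ℝ) (x : E d) : ℝ :=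
  ∫ y, χ (x - y) * u y

/-- the mollification of a vector field -/
noncomputable def molg {d : ℕ} (χ : E d → ℝ) (g : E d → E d) (x : E d) : E d :=
  ∫ y, χ (x - y) • g y

/-- mollifiers of radius `r` -/
structure Moll {d : ℕ} (r : ℝ) (χ : E d → ℝ) : Prop where
  tf : TF χ
  nn : ∀ x, 0 ≤ χ x
  sp : ∀ x, r ≤ ‖x‖ → χ x = 0
  int : ∫ x, χ x = 1

/-- **OP-FIN.** There is an admissible potential with finite `k`-th eigenvalue. -/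
def S_FIN : Prop := ∀ (d : ℕ) (p : ℝ) (k : ℕ), 1 ≤ d → 0 < p →
  ∃ W : E d → ℝ≥0∞, Measurable W ∧ mass p W ≤ 1 ∧ lam k W < ⊤

/-- **OP-MOL.** Mollification of functions of `L²`. -/
def S_MOL : Prop := ∀ (d : ℕ) (χ : E d → ℝ), TF χ →
  ∃ C : ℝ, 0 ≤ C ∧ ∀ u : E d → ℝ, MemLp u 2 →
    ContDiff ℝ ∞ (mol χ u) ∧
    (∀ x, |mol χ u x| ≤ C * (sq u).toReal ^ (1 / 2 : ℝ)) ∧
    (∀ x y, |mol χ u x - mol χ u y| ≤ C * (sq u).toReal ^ (1 / 2 : ℝ) * ‖x - y‖) ∧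
    (∀ g : E d → E d, MemLp g 2 → WGrad u g →
      (∀ x v, fderiv ℝ (mol χ u) x v = inner ℝ (molg χ g x) v)) ∧
    (∀ r, Moll r χ → sq (mol χ u) ≤ sq u) ∧
    (∀ (r : ℝ) (g : E d → E d), Moll r χ → MemLp g 2 →
      ∫⁻ x, ‖molg χ g x‖ₑ ^ 2 ≤ ∫⁻ x, ‖g x‖ₑ ^ 2)

/-- **OP-CONV.** Mollifiers exist and converge to the identity in `L²` (functions and vector
fields). -/
def S_CONV : Prop := ∀ (d : ℕ), 1 ≤ d →
  (∀ r : ℝ, 0 < r → ∃ χ : E d → ℝ, Moll r χ) ∧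
  (∀ (r : ℕ → ℝ) (χ : ℕ → E d → ℝ), Tendsto r atTop (𝓝 0) → (∀ n, Moll (r n) (χ n)) →
    (∀ u : E d → ℝ, MemLp u 2 →
      Tendsto (fun n => sq (fun x => mol (χ n) u x - u x)) atTop (𝓝 0)) ∧
    (∀ g : E d → E d, MemLp g 2 →
      Tendsto (fun n => ∫⁻ x, ‖molg (χ n) g x - g x‖ₑ ^ 2) atTop (𝓝 0)))

/-- **OP-TR.** Distance to the mollification. -/
def S_TR : Prop := ∀ (d : ℕ) (r : ℝ) (χ : E d → ℝ), 1 ≤ d → 0 < r → Moll r χ →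
  ∀ (u : E d → ℝ) (g : E d → E d), MemLp u 2 → MemLp g 2 → WGrad u g →
    sq (fun x => mol χ u x - u x) ≤ ENNReal.ofReal (r ^ 2) * ∫⁻ x, ‖g x‖ₑ ^ 2

/-- **OP-TAIL.** Uniform smallness of the tails in `H¹_V`. -/
def S_TAIL : Prop := ∀ (d : ℕ) (p : ℝ) (V : E d → ℝ≥0∞), 1 ≤ d → 0 < p → Measurable V →
  mass p V < ⊤ → ∀ (M η : ℝ), 0 < M → 0 < η → ∃ R : ℝ, ∀ (u : E d → ℝ) (g : E d → E d),
    InH V u g → sq u + energy V u g ≤ ENNReal.ofReal M →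
    ∫⁻ x in {x : E d | R < ‖x‖}, ‖u x‖ₑ ^ 2 ≤ ENNReal.ofReal η

/-- **OP-COMP.** The embedding of `H¹_V` into `L²` is compact. -/
def S_COMP : Prop := ∀ (d : ℕ) (p : ℝ) (V : E d → ℝ≥0∞), 1 ≤ d → 0 < p → Measurable V →
  mass p V < ⊤ → ∀ M : ℝ, 0 < M → ∀ (u : ℕ → E d → ℝ) (g : ℕ → E d → E d),
    (∀ n, InH V (u n) (g n)) → (∀ n, sq (u n) + energy V (u n) (g n) ≤ ENNReal.ofReal M) →
    ∃ (φ : ℕ → ℕ) (w : E d → ℝ), StrictMono φ ∧ MemLp w 2 ∧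
      Tendsto (fun n => sq (fun x => u (φ n) x - w x)) atTop (𝓝 0)

/-- **OP-ABS.** Existence of eigenvectors from the min-max bound, for a compact operator between
Hilbert spaces. -/
def S_ABS : Prop := ∀ (H K : Type) [NormedAddCommGroup H] [InnerProductSpace ℝ H] [CompleteSpace H]
  [NormedAddCommGroup K] [InnerProductSpace ℝ K] [CompleteSpace K] (J : H →L[ℝ] K),
  IsCompactOperator J → ∀ (k : ℕ) (L : ℝ), 0 ≤ L →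
    (∀ L' : ℝ, L < L' → ∃ v : Fin k → H, (∀ c : Fin k → ℝ, c ≠ 0 → J (∑ i, c i • v i) ≠ 0) ∧
      ∀ c : Fin k → ℝ, ‖∑ i, c i • v i‖ ^ 2 ≤ (L' + 1) * ‖J (∑ i, c i • v i)‖ ^ 2) →
    ∃ (e : Fin k → H) (ν : Fin k → ℝ),
      (∀ i j, inner ℝ (J (e i)) (J (e j)) = if i = j then (1 : ℝ) else 0) ∧
      (∀ i, ν i ≤ L) ∧
      ∀ i (v : H), inner ℝ (e i) v = (ν i + 1) * inner ℝ (J (e i)) (J v)

/-- `u_1, …, u_k` are orthonormal eigenfunctions with eigenvalues `ν_i ≤ L` -/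
structure EigSys {d k : ℕ} (V : E d → ℝ≥0∞) (L : ℝ) (u : Fin k → E d → ℝ)
    (g : Fin k → E d → E d) (ν : Fin k → ℝ) : Prop where
  inH : ∀ i, InH V (u i) (g i)
  orth : ∀ i j, ∫ x, u i x * u j x = if i = j then (1 : ℝ) else 0
  le : ∀ i, ν i ≤ L
  eig : ∀ i, Eig V (ν i) (u i) (g i)

/-- **OP-EIG.** Existence of eigenfunctions. -/
def S_EIG : Prop := ∀ (d : ℕ) (p : ℝ) (k : ℕ) (V : E d → ℝ≥0∞) (L : ℝ), 1 ≤ d → 0 < p →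
  Measurable V → mass p V < ⊤ → 0 ≤ L → lam k V = ENNReal.ofReal L →
    ∃ (u : Fin k → E d → ℝ) (g : Fin k → E d → E d) (ν : Fin k → ℝ), EigSys V L u g ν

/-- **OP-PERT.** The first variation of an optimal potential: for bounded `φ ≥ 0` with
`∫ φ V ^ (-p) ≤ 1` the form `∫ V (φ - 1) u²` is not positive on the eigenfunctions with eigenvalue
`L`. -/
def S_PERT : Prop := ∀ (d : ℕ) (p : ℝ) (k : ℕ) (V : E d → ℝ≥0∞) (L : ℝ), 1 ≤ d → 0 < p → 1 ≤ k →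
  Optimal p k V → 0 ≤ L → lam k V = ENNReal.ofReal L →
  ∀ (u : Fin k → E d → ℝ) (g : Fin k → E d → E d) (ν : Fin k → ℝ), EigSys V L u g ν →
  ∀ (φ : E d → ℝ) (M : ℝ), Measurable φ → (∀ x, 0 ≤ φ x) → (∀ x, φ x ≤ M) →
    ∫⁻ x, ENNReal.ofReal (φ x) * (V x) ^ (-p) ≤ 1 →
    ∃ c : Fin k → ℝ, c ≠ 0 ∧ (∀ i, ν i ≠ L → c i = 0) ∧
      ∫ x, (V x).toReal * ((φ x - 1) * lc c u x ^ 2) ≤ 0

/-- **OP-SEP.** From the first variation to the optimality condition (separation of convex sets). -/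
def S_SEP : Prop := ∀ (d : ℕ) (p : ℝ) (k : ℕ) (V : E d → ℝ≥0∞) (L : ℝ), 1 ≤ d → 0 < p →
  Measurable V → mass p V ≤ 1 →
  ∀ (u : Fin k → E d → ℝ) (g : Fin k → E d → E d) (ν : Fin k → ℝ), EigSys V L u g ν →
  (∀ (φ : E d → ℝ) (M : ℝ), Measurable φ → (∀ x, 0 ≤ φ x) → (∀ x, φ x ≤ M) →
    ∫⁻ x, ENNReal.ofReal (φ x) * (V x) ^ (-p) ≤ 1 →
    ∃ c : Fin k → ℝ, c ≠ 0 ∧ (∀ i, ν i ≠ L → c i = 0) ∧
      ∫ x, (V x).toReal * ((φ x - 1) * lc c u x ^ 2) ≤ 0) →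
  ∃ (B : Fin k → Fin k → ℝ) (κ : ℝ), 0 < κ ∧ (∀ l i, ν i ≠ L → B l i = 0) ∧
    ∀ᵐ x : E d, V x ≠ ⊤ →
      V x * ENNReal.ofReal (∑ l, lc (B l) u x ^ 2) = ENNReal.ofReal κ * (V x) ^ (-p)

/-- **OP-SQ.** The weak gradient of the square. -/
def S_SQ : Prop := ∀ (d : ℕ) (u : E d → ℝ) (g : E d → E d), 1 ≤ d → MemLp u 2 → MemLp g 2 →
  WGrad u g → ∀ θ : E d → ℝ, TF θ → ∀ v : E d,
    ∫ x, u x ^ 2 * fderiv ℝ θ x v = - ∫ x, 2 * (u x * inner ℝ (g x) v) * θ x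

/-- **OP-DIST.** The differential inequality for the sum of the squares of eigenfunctions. -/
def S_DIST : Prop := ∀ (d : ℕ) (p : ℝ) (r : ℕ) (V : E d → ℝ≥0∞) (L κ : ℝ), 1 ≤ d → 0 < p →
  Measurable V → 0 < κ →
  ∀ (w : Fin r → E d → ℝ) (G : Fin r → E d → E d), (∀ l, InH V (w l) (G l)) →
  (∀ l, Eig V L (w l) (G l)) →
  (∀ᵐ x : E d, V x ≠ ⊤ →
    V x * ENNReal.ofReal (∑ l, w l x ^ 2) = ENNReal.ofReal κ * (V x) ^ (-p)) →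
  Integrable (fun x => ∑ l, w l x ^ 2) ∧
  ∀ η : E d → ℝ, TF η → (∀ x, 0 ≤ η x) →
    ∫ x, (2 * κ ^ (1 / (p + 1)) * (∑ l, w l x ^ 2) ^ (p / (p + 1)) - 2 * L * ∑ l, w l x ^ 2) * η x
      ≤ ∫ x, (∑ l, w l x ^ 2) * lap η x

/-- **OP-INF.** Integrable subsolutions tend to zero uniformly at infinity. -/
def S_INF : Prop := ∀ (d : ℕ) (ρ : E d → ℝ) (b : ℝ), 1 ≤ d → 0 ≤ b → Integrable ρ →
  (∀ x, 0 ≤ ρ x) →
  (∀ η : E d → ℝ, TF η → (∀ x, 0 ≤ η x) → 0 ≤ ∫ x, ρ x * (lap η x + b * η x)) →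
  ∀ δ : ℝ, 0 < δ → ∃ R : ℝ, ∀ᵐ x : E d, R < ‖x‖ → ρ x ≤ δ

/-- **OP-MAXP.** A maximum principle. -/
def S_MAXP : Prop := ∀ (d : ℕ) (z : E d → ℝ) (x₀ : E d) (r M b : ℝ), 1 ≤ d → 0 < r → 0 < b →
  ContDiff ℝ ∞ z → (∀ x ∈ Metric.closedBall x₀ r, 0 ≤ z x ∧ z x ≤ M) →
  (∀ x ∈ Metric.ball x₀ r, b * z x ≤ lap z x) → z x₀ ≤ 2 * d * M / (b * r ^ 2)

/-- **OP-STEP.** Improvement of a bound on a ball. -/
def S_STEP : Prop := ∀ (d : ℕ) (ρ : E d → ℝ) (x₀ : E d) (r M b : ℝ), 1 ≤ d → 0 < r → 0 < b →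
  Integrable ρ → (∀ x, 0 ≤ ρ x) → (∀ᵐ x : E d, x ∈ Metric.ball x₀ r → ρ x ≤ M) →
  (∀ η : E d → ℝ, TF η → (∀ x, 0 ≤ η x) → tsupport η ⊆ Metric.ball x₀ r →
    b * ∫ x, ρ x * η x ≤ ∫ x, ρ x * lap η x) →
  ∀ᵐ x : E d, x ∈ Metric.ball x₀ (r / 2) → ρ x ≤ 32 * d * M / (b * r ^ 2)

/-- **OP-DEAD.** Dead core: subsolutions of `Δρ = κ ρ^a - b ρ`, `0 < a < 1`, have bounded
support. -/
def S_DEAD : Prop := ∀ (d : ℕ) (ρ : E d → ℝ) (κ a b : ℝ), 1 ≤ d → 0 < κ → 0 < a → a < 1 → 0 ≤ b →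
  Integrable ρ → (∀ x, 0 ≤ ρ x) →
  (∀ η : E d → ℝ, TF η → (∀ x, 0 ≤ η x) →
    ∫ x, (κ * ρ x ^ a - b * ρ x) * η x ≤ ∫ x, ρ x * lap η x) →
  ∃ R : ℝ, ∀ᵐ x : E d, R < ‖x‖ → ρ x = 0

/-- **The theorem.** -/
def S_MAIN : Prop := ∀ (d : ℕ) (p : ℝ) (k : ℕ), 1 ≤ d → 0 < p → 1 ≤ k →
  ∀ V : E d → ℝ≥0∞, Optimal p k V → ∃ R : ℝ, ∀ᵐ x : E d, R < ‖x‖ → V x = ⊤

end Pool.Agent.Y315.OP
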