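import Pool.Agent.Y315.OP.Stm

/-!
# OP-COMP: the embedding of `H¹_V` into `L²` is compact (helper105, for project OP of helper315)
-/

set_option autoImplicit false

open MeasureTheory Filter Topology Set
open scoped ContDiff ENNReal NNReal BoundedContinuousFunction

namespace Pool.Agent.Y315.OP.Cmp

open Pool.Agent.Y315.OP

variable {d : ℕ}


lemma sq_eq (u : E d → ℝ) : eLpNorm u 2 volume ^ 2 = Pool.Agent.Y315.OP.sq u := by
  have h := eLpNorm_nnreal_pow_eq_lintegral (f := u) (μ := (volume : Measure (E d))) (p := 2)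
    (by norm_num)
  simpa [Pool.Agent.Y315.OP.sq] using h

lemma enorm_sq_real (x : ℝ) : ‖x‖ₑ ^ 2 = ENNReal.ofReal (x ^ 2) := by
  rw [Real.enorm_eq_ofReal_abs, ← ENNReal.ofReal_pow (abs_nonneg x), sq_abs]

lemma three (a b a' b' : ℝ) :
    ‖a - b‖ₑ ^ 2 ≤ 3 * (‖a' - a‖ₑ ^ 2 + ‖a' - b'‖ₑ ^ 2 + ‖b' - b‖ₑ ^ 2) := by
  simp only [enorm_sq_real]
  rw [← ENNReal.ofReal_add (sq_nonneg _) (sq_nonneg _),
    ← ENNReal.ofReal_add (by positivity) (sq_nonneg _),
    show (3 : ℝ≥0∞) = ENNReal.ofReal 3 by norm_num, ← ENNReal.ofReal_mul (by norm_num)]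
  apply ENNReal.ofReal_le_ofReal
  nlinarith [sq_nonneg ((a' - a) + (a' - b')), sq_nonneg ((a' - a) + (b' - b)),
    sq_nonneg ((a' - b') - (b' - b)), sq_nonneg ((a' - a) - (a' - b')),
    sq_nonneg ((a' - a) - (b' - b))]

lemma two (a b : ℝ) : ‖a - b‖ₑ ^ 2 ≤ 2 * (‖a‖ₑ ^ 2 + ‖b‖ₑ ^ 2) := by
  simp only [enorm_sq_real]
  rw [← ENNReal.ofReal_add (sq_nonneg _) (sq_nonneg _),
    show (2 : ℝ≥0∞) = ENNReal.ofReal 2 by norm_num, ← ENNReal.ofReal_mul (by norm_num)]
  apply ENNReal.ofReal_le_ofReal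
  nlinarith [sq_nonneg (a + b)]

lemma pair {u v mu mv : E d → ℝ} {K : Set (E d)} (hK : MeasurableSet K) {τ : ℝ}
    (hτ : ∀ x ∈ K, |mu x - mv x| ≤ τ) (hu : AEStronglyMeasurable u volume)
    (hmu : AEStronglyMeasurable mu volume) :
    Pool.Agent.Y315.OP.sq (fun x => u x - v x) ≤
      3 * (Pool.Agent.Y315.OP.sq (fun x => mu x - u x) + ENNReal.ofReal (τ ^ 2) * volume K
        + Pool.Agent.Y315.OP.sq (fun x => mv x - v x))
      + 2 * ((∫⁻ x in Kᶜ, ‖u x‖ₑ ^ 2) + ∫⁻ x in Kᶜ, ‖v x‖ₑ ^ 2) := by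
  have h1 : ∫⁻ x in K, ‖u x - v x‖ₑ ^ 2 ≤ 3 * (Pool.Agent.Y315.OP.sq (fun x => mu x - u x)
      + ENNReal.ofReal (τ ^ 2) * volume K + Pool.Agent.Y315.OP.sq (fun x => mv x - v x)) := by
    calc ∫⁻ x in K, ‖u x - v x‖ₑ ^ 2
        ≤ ∫⁻ x in K, 3 * (‖mu x - u x‖ₑ ^ 2 + ENNReal.ofReal (τ ^ 2) + ‖mv x - v x‖ₑ ^ 2) := by
          refine setLIntegral_mono' hK ?_
          intro x hx
          refine (three (u x) (v x) (mu x) (mv x)).trans ?_
          gcongr
          rw [enorm_sq_real]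
          apply ENNReal.ofReal_le_ofReal
          have := hτ x hx
          rw [← sq_abs]
          gcongr
      _ = 3 * ((∫⁻ x in K, ‖mu x - u x‖ₑ ^ 2) + ENNReal.ofReal (τ ^ 2) * volume K
          + ∫⁻ x in K, ‖mv x - v x‖ₑ ^ 2) := by
          rw [lintegral_const_mul' _ _ (by norm_num)]
          congr 1
          have hm : AEMeasurable (fun x => ‖mu x - u x‖ₑ ^ 2) (volume.restrict K) :=
            ((hmu.sub hu).enorm.pow_const 2).restrict
          rw [lintegral_add_left' (hm.add_const _), lintegral_add_right' _ aemeasurable_const]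
          congr 2
          simp
      _ ≤ _ := by
          gcongr
          · exact setLIntegral_le_lintegral _ _
          · exact setLIntegral_le_lintegral _ _
  have h2 : ∫⁻ x in Kᶜ, ‖u x - v x‖ₑ ^ 2 ≤
      2 * ((∫⁻ x in Kᶜ, ‖u x‖ₑ ^ 2) + ∫⁻ x in Kᶜ, ‖v x‖ₑ ^ 2) := by
    calc ∫⁻ x in Kᶜ, ‖u x - v x‖ₑ ^ 2 ≤ ∫⁻ x in Kᶜ, 2 * (‖u x‖ₑ ^ 2 + ‖v x‖ₑ ^ 2) :=
          lintegral_mono fun x => two (u x) (v x)
      _ = _ := by
          rw [lintegral_const_mul' _ _ (by norm_num)]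
          congr 1
          have hm : AEMeasurable (fun x => ‖u x‖ₑ ^ 2) (volume.restrict Kᶜ) :=
            (hu.enorm.pow_const 2).restrict
          rw [lintegral_add_left' hm]
  calc Pool.Agent.Y315.OP.sq (fun x => u x - v x) = (∫⁻ x in K, ‖u x - v x‖ₑ ^ 2) + ∫⁻ x in Kᶜ, ‖u x - v x‖ₑ ^ 2 :=
        (lintegral_add_compl _ hK).symm
    _ ≤ _ := add_le_add h1 h2

/-- equi-Lipschitz bounded sequences on a closed ball take finitely many values up to `τ` -/
lemma finite_colors (f : ℕ → E d → ℝ) (R B : ℝ) (hB : ∀ n x, |f n x| ≤ B)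
    (hL : ∀ n x y, |f n x - f n y| ≤ B * ‖x - y‖) {τ : ℝ} (hτ : 0 < τ) :
    ∃ (t : Set (Metric.closedBall (0 : E d) R →ᵇ ℝ)) (_ : t.Finite) (F : ℕ → t), ∀ n m,
      F n = F m → ∀ x ∈ Metric.closedBall (0 : E d) R, |f n x - f m x| ≤ τ := by
  classical
  have : CompactSpace (Metric.closedBall (0 : E d) R) :=
    isCompact_iff_compactSpace.1 (isCompact_closedBall 0 R)
  have hc : ∀ n, Continuous (f n) := by
    intro n
    have hB0 : 0 ≤ B := (abs_nonneg _).trans (hB n 0)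
    refine (LipschitzWith.of_dist_le_mul (K := ⟨B, hB0⟩) ?_).continuous
    intro x y
    rw [Real.dist_eq, dist_eq_norm]
    exact hL n x y
  let G : ℕ → (Metric.closedBall (0 : E d) R →ᵇ ℝ) := fun n =>
    BoundedContinuousFunction.mkOfCompact ⟨fun x => f n x, (hc n).comp continuous_subtype_val⟩
  have hcomp : IsCompact (closure (range G)) := by
    refine BoundedContinuousFunction.arzela_ascoli (Icc (-B) B) isCompact_Icc (range G) ?_ ?_
    · rintro _ x ⟨n, rfl⟩
      exact abs_le.1 (hB n x)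
    · refine Metric.equicontinuous_of_continuity_modulus (fun t => B * t) ?_ _ ?_
      · have : Tendsto (fun t : ℝ => B * t) (𝓝 0) (𝓝 (B * 0)) :=
          (continuous_const.mul continuous_id).tendsto 0
        simpa using this
      · rintro x y ⟨_, n, rfl⟩
        have := hL n x y
        rw [← dist_eq_norm] at this
        exact this
  have htb : TotallyBounded (range G) := hcomp.totallyBounded.subset subset_closure
  obtain ⟨t, ht, hcov⟩ := Metric.totallyBounded_iff.1 htb (τ / 2) (by positivity)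
  have hex : ∀ n, ∃ y : t, dist (G n) y < τ / 2 := by
    intro n
    have := hcov (mem_range_self n)
    simp only [mem_iUnion, Metric.mem_ball] at this
    obtain ⟨y, hy, h⟩ := this
    exact ⟨⟨y, hy⟩, h⟩
  choose F hF using hex
  refine ⟨t, ht, F, ?_⟩
  intro n m hnm x hx
  have h1 : dist (G n) (G m) ≤ τ := by
    calc dist (G n) (G m) ≤ dist (G n) (F n) + dist (G m) (F n) := dist_triangle_right _ _ _
      _ ≤ τ / 2 + τ / 2 := by
          have h2 := hF m
          rw [← hnm] at h2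
          exact add_le_add (hF n).le h2.le
      _ = τ := by ring
  have h2 := (BoundedContinuousFunction.dist_coe_le_dist (f := G n) (g := G m) ⟨x, hx⟩).trans h1
  rw [Real.dist_eq] at h2
  exact h2

theorem comp (h1 : S_MOL) (h2 : S_CONV) (h3 : S_TR) (h4 : S_TAIL) : S_COMP := by
  classical
  intro d p V hd hp hV hm M hM u g hu hb
  have hen : ∀ n, ∫⁻ x, ‖g n x‖ₑ ^ 2 ≤ ENNReal.ofReal M := by
    intro n
    refine le_trans ?_ (hb n)
    unfold energy
    exact le_trans le_self_add le_add_self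
  have hsq : ∀ n, Pool.Agent.Y315.OP.sq (u n) ≤ ENNReal.ofReal M := fun n => le_trans le_self_add (hb n)
  -- finite colourings
  have key : ∀ η : ℝ, 0 < η → ∃ (β : Type) (_ : Fintype β) (F : ℕ → β), ∀ n m, F n = F m →
      Pool.Agent.Y315.OP.sq (fun x => u n x - u m x) ≤ ENNReal.ofReal (13 * η) := by
    intro η hη
    obtain ⟨R, hR⟩ := h4 d p V hd hp hV hm M η hM hη
    obtain ⟨r, hr0, hr⟩ : ∃ r : ℝ, 0 < r ∧ r ^ 2 * M ≤ η := by
      refine ⟨Real.sqrt (η / M), Real.sqrt_pos.2 (by positivity), ?_⟩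
      rw [Real.sq_sqrt (by positivity)]
      exact le_of_eq (by field_simp)
    obtain ⟨χ, hχ⟩ := (h2 d hd).1 r hr0
    obtain ⟨C, hC0, hC⟩ := h1 d χ hχ.tf
    have hdist : ∀ n, Pool.Agent.Y315.OP.sq (fun x => mol χ (u n) x - u n x) ≤ ENNReal.ofReal η := by
      intro n
      calc Pool.Agent.Y315.OP.sq (fun x => mol χ (u n) x - u n x)
          ≤ ENNReal.ofReal (r ^ 2) * ∫⁻ x, ‖g n x‖ₑ ^ 2 :=
            h3 d r χ hd hr0 hχ (u n) (g n) (hu n).mu (hu n).mg (hu n).wg
        _ ≤ ENNReal.ofReal (r ^ 2) * ENNReal.ofReal M := by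
            gcongr
            exact hen n
        _ = ENNReal.ofReal (r ^ 2 * M) := (ENNReal.ofReal_mul (by positivity)).symm
        _ ≤ ENNReal.ofReal η := ENNReal.ofReal_le_ofReal hr
    set K : Set (E d) := Metric.closedBall (0 : E d) R with hKdef
    have hKm : MeasurableSet K := Metric.isClosed_closedBall.measurableSet
    have hKc : Kᶜ = {x : E d | R < ‖x‖} := by
      ext x
      simp [hKdef]
    have hKfin : volume K ≠ ⊤ := (isCompact_closedBall (0 : E d) R).measure_lt_top.ne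
    set vK : ℝ := (volume K).toReal with hvK
    have hvK0 : 0 ≤ vK := ENNReal.toReal_nonneg
    obtain ⟨τ, hτ0, hτ⟩ : ∃ τ : ℝ, 0 < τ ∧ τ ^ 2 * vK ≤ η := by
      refine ⟨Real.sqrt (η / (vK + 1)), Real.sqrt_pos.2 (by positivity), ?_⟩
      rw [Real.sq_sqrt (by positivity), div_mul_eq_mul_div, div_le_iff₀ (by positivity)]
      nlinarith
    have hroot : ∀ n, (Pool.Agent.Y315.OP.sq (u n)).toReal ^ (1 / 2 : ℝ) ≤ M ^ (1 / 2 : ℝ) := by
      intro n
      refine Real.rpow_le_rpow ENNReal.toReal_nonneg ?_ (by norm_num)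
      have := ENNReal.toReal_mono ENNReal.ofReal_ne_top (hsq n)
      rwa [ENNReal.toReal_ofReal hM.le] at this
    obtain ⟨t, ht, F, hF⟩ := finite_colors (fun n => mol χ (u n)) R (C * M ^ (1 / 2 : ℝ))
      (fun n x => ((hC (u n) (hu n).mu).2.1 x).trans
        (mul_le_mul_of_nonneg_left (hroot n) hC0))
      (fun n x y => ((hC (u n) (hu n).mu).2.2.1 x y).trans
        (mul_le_mul_of_nonneg_right (mul_le_mul_of_nonneg_left (hroot n) hC0) (norm_nonneg _)))
      hτ0
    obtain ⟨N, hN⟩ : ∃ N : ℕ, Nonempty (t ≃ Fin N) := by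
      have := ht.to_subtype
      obtain ⟨N, ⟨e⟩⟩ := Finite.exists_equiv_fin t
      exact ⟨N, ⟨e⟩⟩
    obtain ⟨e⟩ := hN
    refine ⟨Fin N, inferInstance, fun n => e (F n), ?_⟩
    intro n m hnm
    have hnm' : F n = F m := e.injective hnm
    have hmeas : AEStronglyMeasurable (mol χ (u n)) (volume : Measure (E d)) :=
      (hC (u n) (hu n).mu).1.continuous.aestronglyMeasurable
    have hp := pair (u := u n) (v := u m) (mu := mol χ (u n)) (mv := mol χ (u m)) hKm
      (hF n m hnm') (hu n).mu.1 hmeas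
    have ht1 : ∫⁻ x in Kᶜ, ‖u n x‖ₑ ^ 2 ≤ ENNReal.ofReal η := by
      rw [hKc]
      exact hR (u n) (g n) (hu n) (hb n)
    have ht2 : ∫⁻ x in Kᶜ, ‖u m x‖ₑ ^ 2 ≤ ENNReal.ofReal η := by
      rw [hKc]
      exact hR (u m) (g m) (hu m) (hb m)
    have hvol : ENNReal.ofReal (τ ^ 2) * volume K ≤ ENNReal.ofReal η := by
      rw [← ENNReal.ofReal_toReal hKfin, ← ENNReal.ofReal_mul (by positivity)]
      exact ENNReal.ofReal_le_ofReal hτ
    calc Pool.Agent.Y315.OP.sq (fun x => u n x - u m x)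
        ≤ 3 * (ENNReal.ofReal η + ENNReal.ofReal η + ENNReal.ofReal η)
          + 2 * (ENNReal.ofReal η + ENNReal.ofReal η) := by
          refine hp.trans ?_
          gcongr
          · exact hdist n
          · exact hdist m
      _ = ENNReal.ofReal (13 * η) := by
          rw [show (3 : ℝ≥0∞) = ENNReal.ofReal 3 by norm_num,
            show (2 : ℝ≥0∞) = ENNReal.ofReal 2 by norm_num,
            ← ENNReal.ofReal_add hη.le hη.le, ← ENNReal.ofReal_add (by positivity) hη.le,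
            ← ENNReal.ofReal_mul (by norm_num), ← ENNReal.ofReal_mul (by norm_num),
            ← ENNReal.ofReal_add (by positivity) (by positivity)]
          congr 1
          ring
  -- total boundedness in `L²`
  let U : ℕ → Lp ℝ 2 (volume : Measure (E d)) := fun n => (hu n).mu.toLp (u n)
  have hedist : ∀ n m, edist (U n) (U m) ^ 2 = Pool.Agent.Y315.OP.sq (fun x => u n x - u m x) := by
    intro n m
    rw [Lp.edist_toLp_toLp, ← sq_eq]
    rfl
  have htb : TotallyBounded (range U) := by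
    refine Metric.totallyBounded_of_finite_discretization ?_
    intro ε hε
    obtain ⟨β, hβ, F, hF⟩ := key (ε ^ 2 / 26) (by positivity)
    refine ⟨ULift β, inferInstance, fun x => ULift.up (F x.2.choose), ?_⟩
    rintro ⟨x, hx⟩ ⟨y, hy⟩ hxy
    have hx' : U (hx.choose) = x := hx.choose_spec
    have hy' : U (hy.choose) = y := hy.choose_spec
    have h := hF _ _ (ULift.up_injective hxy)
    rw [← hedist, hx', hy'] at h
    show dist x y < ε
    have hd1 : ENNReal.ofReal (dist x y ^ 2) ≤ ENNReal.ofReal (13 * (ε ^ 2 / 26)) := by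
      rw [ENNReal.ofReal_pow dist_nonneg, ← edist_dist]
      exact h
    have hd2 : dist x y ^ 2 ≤ 13 * (ε ^ 2 / 26) :=
      (ENNReal.ofReal_le_ofReal_iff (by positivity)).1 hd1
    have hd3 : dist x y ^ 2 < ε ^ 2 := by nlinarith [sq_pos_of_pos hε]
    exact lt_of_pow_lt_pow_left₀ 2 hε.le hd3
  have hcl : IsCompact (closure (range U)) :=
    htb.closure.isCompact_of_isClosed isClosed_closure
  obtain ⟨a, -, φ, hφ, hlim⟩ := hcl.tendsto_subseq (x := U)
    (fun n => subset_closure (mem_range_self n))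
  refine ⟨φ, a, hφ, Lp.memLp a, ?_⟩
  have hsqeq : ∀ n, Pool.Agent.Y315.OP.sq (fun x => u (φ n) x - (a : E d → ℝ) x) = edist (U (φ n)) a ^ 2 := by
    intro n
    rw [← sq_eq]
    have : edist (U (φ n)) a = eLpNorm (u (φ n) - (a : E d → ℝ)) 2 volume := by
      conv_lhs => rw [← Lp.toLp_coeFn a (Lp.memLp a)]
      rw [Lp.edist_toLp_toLp]
    rw [this]
    rfl
  simp only [hsqeq]
  have h0 : Tendsto (fun n => edist (U (φ n)) a) atTop (𝓝 0) :=
    tendsto_iff_edist_tendsto_0.1 hlim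
  have h1' := (ENNReal.continuous_pow 2).tendsto 0 |>.comp h0
  rw [zero_pow two_ne_zero] at h1'
  exact h1'

end Pool.Agent.Y315.OP.Cmp
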