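import Pool.Agent.Y315.OP.Final
import Pool.Agent.Y249.OP.Fin
import Pool.Agent.Y930.OP.Mol
import Pool.Agent.Y455.OP.Conv
import Pool.Agent.Y344.OP.TR
import Pool.Agent.Y277.OP.Tail
import Pool.Agent.Y315.OP.Comp
import Pool.Agent.Y980.OP.Abs
import Pool.Agent.Y768.OP.Eig
import Pool.Agent.Y431.OP.Sep
import Pool.Agent.Y26.OP.SQ
import Pool.Agent.Y308.OP.Dist
import Pool.Agent.Y953.OP.MaxStep

/-!
# Optimal potentials: all parts together
-/

set_option autoImplicit false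

open MeasureTheory Filter Topology
open scoped ContDiff ENNReal

namespace Pool.Agent.Y315.OP

theorem h_fin : S_FIN := Pool.Agent.Y249.OP.fin
theorem h_mol : S_MOL := Pool.Agent.Y930.OP.moli
theorem h_conv : S_CONV := Pool.Agent.Y455.OP.conv
theorem h_tr : S_TR := Pool.Agent.Y344.OP.TR.tr h_mol h_conv
theorem h_tail : S_TAIL := Pool.Agent.Y277.OP.tail h_mol h_conv h_tr
theorem h_comp : S_COMP := Pool.Agent.Y315.OP.Cmp.comp h_mol h_conv h_tr h_tail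
theorem h_abs : S_ABS := Pool.Agent.Y980.OP.abs
theorem h_eig : S_EIG := Pool.Agent.Y768.OP.Eig.eig h_comp h_abs
theorem h_sep : S_SEP := Pool.Agent.Y431.OP.sep
theorem h_sq : S_SQ := Pool.Agent.Y26.OP.SQ.square h_mol h_conv
theorem h_dist : S_DIST := Pool.Agent.Y308.OP.dist h_sq
theorem h_inf : S_INF := Pool.Agent.Y486.OP.inf
theorem h_maxp : S_MAXP := Pool.Agent.Y953.OP.maxp
theorem h_step : S_STEP := Pool.Agent.Y953.OP.step h_maxp
theorem h_dead : S_DEAD := Pool.Agent.Y310.OP.dead h_inf h_step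

/-- an almost everywhere version of `structure_loc` -/
theorem structure_ae (d : ℕ) (p : ℝ) (k : ℕ) (hd : 1 ≤ d) (hp : 0 < p) (hk : 1 ≤ k) (ε : ℝ)
    (hε : 0 < ε) (V : E d → ℝ≥0∞) (hVm : AEMeasurable V) (hV1 : mass p V ≤ 1)
    (hV : ∀ W : E d → ℝ≥0∞, AEMeasurable W → mass p W ≤ 1 →
      (∀ᵐ x : E d, ENNReal.ofReal (1 - ε) * V x ≤ W x ∧ W x ≤ ENNReal.ofReal (1 + ε) * V x) →
      lam k V ≤ lam k W) (hlt : lam k V < ⊤) :
    (∃ R : ℝ, ∀ᵐ x : E d, V x < ⊤ → ‖x‖ ≤ R) ∧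
    (∃ δ : ℝ, 0 < δ ∧ ∀ᵐ x : E d, ENNReal.ofReal δ ≤ V x) ∧
    ∃ (κ : ℝ) (w : Fin k → E d → ℝ) (G : Fin k → E d → E d), 0 < κ ∧
      (∀ l, InH V (w l) (G l)) ∧ (∀ l, Eig V (lam k V).toReal (w l) (G l)) ∧
      ∀ᵐ x : E d, V x =
        (ENNReal.ofReal κ / ENNReal.ofReal (∑ l, w l x ^ 2)) ^ (1 / (p + 1)) := by
  have hae : V =ᵐ[volume] hVm.mk V := hVm.ae_eq_mk
  have hloc : LocOptimal p k ε (hVm.mk V) := by
    refine ⟨hVm.measurable_mk, by rw [← mass_congr p hae]; exact hV1, fun W hWm hW1 hW => ?_⟩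
    rw [← lam_congr k hae]
    refine hV W hWm.aemeasurable hW1 ?_
    filter_upwards [hae] with x hx
    rw [hx]
    exact hW x
  obtain ⟨⟨R, hR⟩, ⟨δ, hδ, hδV⟩, κ, w, G, hκ, h1, h2, h3⟩ :=
    structure_loc h_eig h_sep h_dist h_dead d p k hd hp hk ε hε (hVm.mk V) hloc
      (by rw [← lam_congr k hae]; exact hlt)
  have hl : ∀ w : E d → ℝ, ∫⁻ x, V x * ‖w x‖ₑ ^ 2 = ∫⁻ x, hVm.mk V x * ‖w x‖ₑ ^ 2 := by
    intro w
    refine lintegral_congr_ae ?_
    filter_upwards [hae] with x hx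
    rw [hx]
  have hInH : ∀ (w : E d → ℝ) (G : E d → E d), InH V w G ↔ InH (hVm.mk V) w G := by
    intro w G
    constructor
    · rintro ⟨a, b, c, e⟩
      exact ⟨a, b, c, by rw [← hl]; exact e⟩
    · rintro ⟨a, b, c, e⟩
      exact ⟨a, b, c, by rw [hl]; exact e⟩
  refine ⟨⟨R, ?_⟩, ⟨δ, hδ, ?_⟩, κ, w, G, hκ, fun l => (hInH _ _).2 (h1 l), fun l φ γ hφ => ?_, ?_⟩
  · filter_upwards [hR, hae] with x hx hxV
    rw [hxV]
    exact hx
  · filter_upwards [hδV, hae] with x hx hxV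
    rw [hxV]
    exact hx
  · have := h2 l φ γ ((hInH _ _).1 hφ)
    rw [← lam_congr k hae] at this
    rw [← this]
    congr 1
    refine integral_congr_ae ?_
    filter_upwards [hae] with x hx
    rw [hx]
  · filter_upwards [h3, hae] with x hx hxV
    rw [hxV]
    exact hx

end Pool.Agent.Y315.OP
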