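import Pool.Agent.Y291.OP.Pert

/-!
# The first variation at a local minimizer

The proof of helper291 (Pool.Agent.Y291.OP.Pert) with a smaller perturbation, for local minimizers.
-/

set_option autoImplicit false

open MeasureTheory Filter Topology
open scoped ContDiff ENNReal

namespace Pool.Agent.Y315.OP

open Pool.Agent.Y291.OP

/-- `V` minimizes the `k`-th eigenvalue among the admissible potentials `W` with
`(1 - ε) V ≤ W ≤ (1 + ε) V` -/
def LocOptimal {d : ℕ} (p : ℝ) (k : ℕ) (ε : ℝ) (V : E d → ℝ≥0∞) : Prop :=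
  Measurable V ∧ mass p V ≤ 1 ∧
    ∀ W : E d → ℝ≥0∞, Measurable W → mass p W ≤ 1 →
      (∀ x, ENNReal.ofReal (1 - ε) * V x ≤ W x ∧ W x ≤ ENNReal.ofReal (1 + ε) * V x) →
      lam k V ≤ lam k W

theorem pert_loc (d : ℕ) (p : ℝ) (k : ℕ) (V : E d → ℝ≥0∞) (L ε : ℝ) (hp : 0 < p)
    (hk : 1 ≤ k) (hε : 0 < ε) (hopt : LocOptimal p k ε V) (hL : 0 ≤ L)
    (hlam : lam k V = ENNReal.ofReal L)
    (u : Fin k → E d → ℝ) (g : Fin k → E d → E d) (ν : Fin k → ℝ) (hE : EigSys V L u g ν)
    (φ : E d → ℝ) (M : ℝ) (hφm : Measurable φ) (hφ0 : ∀ x, 0 ≤ φ x) (hφM : ∀ x, φ x ≤ M)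
    (hφ1 : ∫⁻ x, ENNReal.ofReal (φ x) * (V x) ^ (-p) ≤ 1) :
    ∃ c : Fin k → ℝ, c ≠ 0 ∧ (∀ i, ν i ≠ L → c i = 0) ∧
      ∫ x, (V x).toReal * ((φ x - 1) * lc c u x ^ 2) ≤ 0 := by
  by_contra hcon
  push Not at hcon
  obtain ⟨hVm, hmass, hmin⟩ := hopt
  have hM : 0 ≤ M := (hφ0 0).trans (hφM 0)
  set q : ℝ := 1 / p with hq
  have hq0 : 0 < q := by positivity
  have hum : ∀ i, AEStronglyMeasurable (u i) volume := fun i => (hE.inH i).mu.aestronglyMeasurable
  have huf : ∀ i, ∫⁻ x, V x * ‖u i x‖ₑ ^ 2 < ⊤ := fun i => (hE.inH i).fin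
  -- weighted forms
  have hW : ∀ (b : E d → ℝ) (K : ℝ), Measurable b → (∀ x, |b x| ≤ K) → ∀ i j,
      Integrable (fun x => (V x).toReal * b x * (u i x * u j x)) :=
    fun b K hb hK i j => int_wt hVm (hum i) (huf i) (hum j) (huf j) hb hK
  have hWc : ∀ (b : E d → ℝ) (K : ℝ), Measurable b → (∀ x, |b x| ≤ K) → ∀ c : Fin k → ℝ,
      Integrable (fun x => (V x).toReal * b x * lc c u x ^ 2) ∧
      ∫ x, (V x).toReal * b x * lc c u x ^ 2 =
        ∑ i, ∑ j, c i * c j * ∫ x, (V x).toReal * b x * (u i x * u j x) := by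
    intro b K hb hK c
    have h1 := expand c (fun i j x => (V x).toReal * b x * (u i x * u j x))
      (fun i j => hW b K hb hK i j)
    simp only [lc_sq]
    exact h1
  have hztop : ∀ c : Fin k → ℝ, ∀ᵐ x : E d, V x = ⊤ → lc c u x = 0 := by
    intro c
    have h1 : ∀ᵐ x : E d, ∀ i, V x = ⊤ → u i x = 0 :=
      ae_all_iff.2 (fun i => ae_top hVm (hum i) (huf i))
    filter_upwards [h1] with x hx hx2
    unfold lc
    exact Finset.sum_eq_zero (fun i _ => by rw [hx i hx2, mul_zero])
  -- the gradient part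
  have hGi : ∀ i j, Integrable (fun x => inner ℝ (g i x) (g j x)) := by
    intro i j
    have h1 := ((hE.inH i).mg.integrable_norm_pow (by norm_num)).add
      ((hE.inH j).mg.integrable_norm_pow (by norm_num))
    refine h1.mono' ?_ (Eventually.of_forall (fun x => ?_))
    · exact (hE.inH i).mg.aestronglyMeasurable.inner (hE.inH j).mg.aestronglyMeasurable
    · simp only [Pi.add_apply]
      have h2 := abs_real_inner_le_norm (g i x) (g j x)
      rw [Real.norm_eq_abs]
      nlinarith [sq_nonneg (‖g i x‖ - ‖g j x‖), norm_nonneg (g i x), norm_nonneg (g j x)]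
  have hUi : ∀ i j, Integrable (fun x => u i x * u j x) :=
    fun i j => (hE.inH i).mu.integrable_mul (hE.inH j).mu
  -- the square norm of a combination
  have hR : ∀ c : Fin k → ℝ, Pool.Agent.Y315.OP.sq (lc c u) = ENNReal.ofReal (∑ i, c i ^ 2) := by
    intro c
    have h1 := expand c (fun i j x => u i x * u j x) hUi
    have h2 : ∀ x, lc c u x ^ 2 = ∑ i, ∑ j, c i * c j * (u i x * u j x) := by
      intro x
      have := lc_sq c u x 1
      simpa using this
    have h3 : Integrable (fun x => lc c u x ^ 2) := by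
      simp only [h2]
      exact h1.1
    have h4 : ∫ x, lc c u x ^ 2 = ∑ i, c i ^ 2 := by
      simp only [h2]
      rw [h1.2]
      simp only [hE.orth]
      refine Finset.sum_congr rfl (fun i _ => ?_)
      simp [pow_two]
    unfold Pool.Agent.Y315.OP.sq
    rw [← h4, ofReal_integral_eq_lintegral_ofReal h3
      (Eventually.of_forall (fun x => sq_nonneg _))]
    refine lintegral_congr (fun x => ?_)
    rw [← sq_abs, ENNReal.ofReal_pow (abs_nonneg _), ← Real.norm_eq_abs, ofReal_norm]
  have hG : ∀ c : Fin k → ℝ, ∫⁻ x, ‖lcg c g x‖ₑ ^ 2 =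
      ENNReal.ofReal (∑ i, ∑ j, c i * c j * ∫ x, inner ℝ (g i x) (g j x)) ∧
      0 ≤ ∑ i, ∑ j, c i * c j * ∫ x, inner ℝ (g i x) (g j x) := by
    intro c
    have h1 := expand c (fun i j x => inner ℝ (g i x) (g j x)) hGi
    simp only [← lcg_sq] at h1
    rw [← h1.2]
    refine ⟨?_, integral_nonneg (fun x => by positivity)⟩
    rw [ofReal_integral_eq_lintegral_ofReal h1.1 (Eventually.of_forall (fun x => by positivity))]
    refine lintegral_congr (fun x => ?_)
    rw [ENNReal.ofReal_pow (norm_nonneg _), ofReal_norm]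
  have hEig : ∀ i j, (∫ x, inner ℝ (g i x) (g j x)) +
      ∫ x, (V x).toReal * (fun _ => (1 : ℝ)) x * (u i x * u j x) =
      ν i * if i = j then (1 : ℝ) else 0 := by
    intro i j
    have h1 := hE.eig i (u j) (g j) (hE.inH j)
    rw [hE.orth i j] at h1
    simpa using h1
  have hNN : ∀ c : Fin k → ℝ, (∑ i, ∑ j, c i * c j * ∫ x, inner ℝ (g i x) (g j x)) +
      (∑ i, ∑ j, c i * c j * ∫ x, (V x).toReal * (fun _ => (1 : ℝ)) x * (u i x * u j x)) =
      ∑ i, ν i * c i ^ 2 := by
    intro c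
    rw [← Finset.sum_add_distrib]
    refine Finset.sum_congr rfl (fun i _ => ?_)
    rw [← Finset.sum_add_distrib]
    have h1 : ∀ j, c i * c j * ∫ x, inner ℝ (g i x) (g j x) = c i * c j *
        (∫ x, inner ℝ (g i x) (g j x)) := fun j => rfl
    have h2 : ∀ j, c i * c j * (∫ x, inner ℝ (g i x) (g j x)) + c i * c j *
        (∫ x, (V x).toReal * (fun _ => (1 : ℝ)) x * (u i x * u j x)) =
        c i * c j * (ν i * if i = j then (1 : ℝ) else 0) := by
      intro j
      rw [← mul_add, hEig]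
    simp only [h2]
    simp
    ring
  -- the weight `φ - 1`
  have hb1m : Measurable (fun x => φ x - 1) := hφm.sub_const 1
  have hb1K : ∀ x, |φ x - 1| ≤ 1 + M := by
    intro x
    rw [abs_le]
    constructor <;> linarith [hφ0 x, hφM x]
  have hone : ∀ x : E d, |(fun _ => (1 : ℝ)) x| ≤ 1 := fun x => by simp
  set Bm : (Fin k → ℝ) → ℝ := fun c => ∑ i, ∑ j, c i * c j *
    ∫ x, (V x).toReal * (φ x - 1) * (u i x * u j x) with hBm
  set Pm : (Fin k → ℝ) → ℝ := fun c => ∑ i, ∑ j, c i * c j *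
    ∫ x, (V x).toReal * (fun _ => (1 : ℝ)) x * (u i x * u j x) with hPm
  set C1 : ℝ := (2 * q + 4 * q ^ 2) * (1 + M) ^ 2 with hC1
  have hC1' : 0 ≤ C1 := by positivity
  obtain ⟨t, s, ht0, htT, hs0, hts⟩ := findim hk (fun c => ∑ i, (L - ν i) * c i ^ 2)
    (fun c => q * Bm c) (fun c => ∑ i, c i ^ 2)
    (by fun_prop) (by simp only [hBm]; fun_prop) (by fun_prop)
    (by
      intro a c
      simp only [Pi.smul_apply, smul_eq_mul, Finset.mul_sum]
      exact Finset.sum_congr rfl (fun i _ => by ring))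
    (by
      intro a c
      simp only [hBm, Pi.smul_apply, smul_eq_mul, Finset.mul_sum]
      exact Finset.sum_congr rfl (fun i _ => Finset.sum_congr rfl (fun j _ => by ring)))
    (by
      intro a c
      simp only [Pi.smul_apply, smul_eq_mul, Finset.mul_sum]
      exact Finset.sum_congr rfl (fun i _ => by ring))
    (by
      intro c
      exact Finset.sum_nonneg (fun i _ => mul_nonneg (by linarith [hE.le i]) (sq_nonneg _)))
    (by
      intro c hc
      obtain ⟨i, hi⟩ := Function.ne_iff.1 hc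
      exact Finset.sum_pos' (fun i _ => sq_nonneg _) ⟨i, Finset.mem_univ i, by
        have : c i ≠ 0 := hi
        positivity⟩)
    (by
      intro c hc hNc
      have h1 : ∀ i, ν i ≠ L → c i = 0 := by
        intro i hi
        have h2 := (Finset.sum_eq_zero_iff_of_nonneg
          (fun i _ => mul_nonneg (by linarith [hE.le i]) (sq_nonneg _))).1 hNc i
          (Finset.mem_univ i)
        rcases mul_eq_zero.1 h2 with h3 | h3
        · exact absurd (by linarith) hi
        · exact pow_eq_zero_iff (two_ne_zero) |>.1 h3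
      have h2 := hcon c hc h1
      have h3 := (hWc (fun x => φ x - 1) (1 + M) hb1m hb1K c).2
      have h4 : ∫ x, (V x).toReal * ((φ x - 1) * lc c u x ^ 2) = Bm c := by
        rw [hBm]
        simp only
        rw [← h3]
        congr 1
        ext x
        ring
      rw [h4] at h2
      exact mul_pos hq0 h2)
    (C1 * L) (min (1 / (2 * (1 + M) * (1 + q))) (ε / ((1 + M) * (q + (2 * q + 4 * q ^ 2)))))
    (by positivity)
  have htE : t * (1 + M) * (q + (2 * q + 4 * q ^ 2)) ≤ ε := by
    have h1 := htT.trans (min_le_right _ _)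
    rw [le_div_iff₀ (by positivity)] at h1
    linarith
  replace htT := htT.trans (min_le_left _ _)
  -- the perturbed potential
  have hsm : ∀ x, |t * (φ x - 1)| ≤ 1 / 2 ∧ q * |t * (φ x - 1)| ≤ 1 / 2 ∧
      (t * (φ x - 1)) ^ 2 ≤ t ^ 2 * (1 + M) ^ 2 := by
    intro x
    have h1 : |t * (φ x - 1)| ≤ t * (1 + M) := by
      rw [abs_mul, abs_of_pos ht0]
      exact mul_le_mul_of_nonneg_left (hb1K x) ht0.le
    have h2 : t * (1 + M) ≤ 1 / (2 * (1 + q)) := by
      have h3 : t * (1 + M) ≤ 1 / (2 * (1 + M) * (1 + q)) * (1 + M) :=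
        mul_le_mul_of_nonneg_right htT (by linarith)
      have h4 : 1 / (2 * (1 + M) * (1 + q)) * (1 + M) = 1 / (2 * (1 + q)) := by
        have : (1 + M) ≠ 0 := by linarith
        field_simp
      linarith
    have h5 : 1 / (2 * (1 + q)) ≤ 1 / 2 := by
      apply one_div_le_one_div_of_le (by norm_num)
      linarith
    have h6 : q * (1 / (2 * (1 + q))) ≤ 1 / 2 := by
      rw [mul_one_div, div_le_div_iff₀ (by positivity) (by norm_num)]
      linarith
    refine ⟨by linarith, ?_, ?_⟩
    · calc q * |t * (φ x - 1)| ≤ q * (1 / (2 * (1 + q))) :=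
            mul_le_mul_of_nonneg_left (h1.trans h2) hq0.le
        _ ≤ 1 / 2 := h6
    · rw [← sq_abs, ← mul_pow]
      exact pow_le_pow_left₀ (abs_nonneg _) h1 2
  have hfpos : ∀ x, 0 < 1 + t * (φ x - 1) := by
    intro x
    have := (abs_le.1 (hsm x).1).1
    linarith
  set b : E d → ℝ := fun x => (1 + t * (φ x - 1)) ^ (-q) with hb
  have hbm : Measurable b := by
    rw [hb]
    exact ((hb1m.const_mul t).const_add 1).pow_const (-q)
  have hb0 : ∀ x, 0 ≤ b x := fun x => (Real.rpow_pos_of_pos (hfpos x) _).le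
  have hbup : ∀ x, b x ≤ 1 - q * (t * (φ x - 1)) + C1 * t ^ 2 := by
    intro x
    have h1 := elem q (t * (φ x - 1)) hq0 (hsm x).1 (hsm x).2.1
    have h2 : (2 * q + 4 * q ^ 2) * (t * (φ x - 1)) ^ 2 ≤ C1 * t ^ 2 := by
      rw [hC1]
      have h3 := mul_le_mul_of_nonneg_left (hsm x).2.2
        (show 0 ≤ 2 * q + 4 * q ^ 2 by positivity)
      linarith
    simp only [hb]
    linarith
  have hbK : ∀ x, |b x| ≤ 3 / 2 + C1 * t ^ 2 := by
    intro x
    rw [abs_of_nonneg (hb0 x)]
    have h1 := hbup x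
    have h2 := (hsm x).2.1
    have h3 : -(q * (t * (φ x - 1))) ≤ q * |t * (φ x - 1)| := by
      have := neg_abs_le (t * (φ x - 1))
      nlinarith
    linarith
  set W : E d → ℝ≥0∞ := fun x => V x * ENNReal.ofReal (b x) with hW'
  have hWm : Measurable W := hVm.mul hbm.ennreal_ofReal
  have hWmass : mass p W ≤ 1 := by
    have h1 : ∀ x, (W x) ^ (-p) = (V x) ^ (-p) * ENNReal.ofReal (1 + t * (φ x - 1)) := by
      intro x
      have h2 : (ENNReal.ofReal (b x)) ^ (-p) = ENNReal.ofReal (1 + t * (φ x - 1)) := by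
        rw [ENNReal.ofReal_rpow_of_pos (Real.rpow_pos_of_pos (hfpos x) _)]
        congr 1
        change ((1 + t * (φ x - 1)) ^ (-q)) ^ (-p) = _
        rw [← Real.rpow_mul (hfpos x).le]
        have : -q * -p = 1 := by
          rw [hq]
          field_simp
        rw [this, Real.rpow_one]
      rcases eq_or_ne (V x) 0 with h3 | h3
      · simp only [hW', h3, zero_mul]
        rw [ENNReal.zero_rpow_of_neg (by linarith), ENNReal.top_mul]
        simpa using hfpos x
      · simp only [hW']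
        rw [ENNReal.mul_rpow_of_ne_zero h3
          (by simpa using Real.rpow_pos_of_pos (hfpos x) _), h2]
    have h2 : ∀ x, (V x) ^ (-p) * ENNReal.ofReal (1 + t * (φ x - 1)) =
        ENNReal.ofReal (1 - t) * (V x) ^ (-p) +
        ENNReal.ofReal t * (ENNReal.ofReal (φ x) * (V x) ^ (-p)) := by
      intro x
      have h3 : 1 + t * (φ x - 1) = (1 - t) + t * φ x := by ring
      have h4 : t ≤ 1 := by
        refine htT.trans ?_
        rw [div_le_one (by positivity)]
        nlinarith [mul_nonneg hM hq0.le]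
      rw [h3, ENNReal.ofReal_add (by linarith) (mul_nonneg ht0.le (hφ0 x)),
        ENNReal.ofReal_mul ht0.le]
      ring
    have h4 : t ≤ 1 := by
      refine htT.trans ?_
      rw [div_le_one (by positivity)]
      nlinarith [mul_nonneg hM hq0.le]
    unfold mass
    simp only [h1, h2]
    have hVp : Measurable (fun x => (V x) ^ (-p)) := hVm.pow_const (-p)
    have hVq : Measurable (fun x => ENNReal.ofReal (φ x) * (V x) ^ (-p)) :=
      hφm.ennreal_ofReal.mul hVp
    rw [lintegral_add_left (hVp.const_mul _), lintegral_const_mul _ hVp,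
      lintegral_const_mul _ hVq]
    calc ENNReal.ofReal (1 - t) * (∫⁻ x, (V x) ^ (-p)) +
          ENNReal.ofReal t * (∫⁻ x, ENNReal.ofReal (φ x) * (V x) ^ (-p))
        ≤ ENNReal.ofReal (1 - t) * 1 + ENNReal.ofReal t * 1 :=
          add_le_add (mul_le_mul' le_rfl hmass) (mul_le_mul' le_rfl hφ1)
      _ = 1 := by
          rw [mul_one, mul_one, ← ENNReal.ofReal_add (by linarith) ht0.le]
          simp
  have hWloc : ∀ x, ENNReal.ofReal (1 - ε) * V x ≤ W x ∧ W x ≤ ENNReal.ofReal (1 + ε) * V x := by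
    intro x
    have hs := hsm x
    set s' : ℝ := t * (φ x - 1) with hs'
    have h1 : |s'| * (q + (2 * q + 4 * q ^ 2)) ≤ ε := by
      have h2 : |s'| ≤ t * (1 + M) := by
        rw [hs', abs_mul, abs_of_pos ht0]
        exact mul_le_mul_of_nonneg_left (hb1K x) ht0.le
      exact (mul_le_mul_of_nonneg_right h2 (by positivity)).trans htE
    have h0 : 0 ≤ |s'| := abs_nonneg _
    have hlow : 1 - ε ≤ b x := by
      have h2 : Real.log (1 + s') ≤ s' := by
        have := Real.log_le_sub_one_of_pos (hfpos x)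
        linarith
      have h3 := Real.add_one_le_exp (Real.log (1 + s') * (-q))
      have h4 : b x = Real.exp (Real.log (1 + s') * (-q)) := by
        simp only [hb]
        rw [Real.rpow_def_of_pos (hfpos x)]
      have h5 : q * s' ≤ q * |s'| := mul_le_mul_of_nonneg_left (le_abs_self _) hq0.le
      have h6 : 0 ≤ |s'| * (2 * q + 4 * q ^ 2) := by positivity
      rw [h4]
      nlinarith
    have hup : b x ≤ 1 + ε := by
      have h2 := elem q s' hq0 hs.1 hs.2.1
      have h3 : -(q * s') ≤ q * |s'| := by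
        have := neg_abs_le s'
        nlinarith
      have h4 : s' ^ 2 ≤ |s'| := by
        rw [← sq_abs]
        nlinarith [hs.1]
      have h5 : (2 * q + 4 * q ^ 2) * s' ^ 2 ≤ (2 * q + 4 * q ^ 2) * |s'| :=
        mul_le_mul_of_nonneg_left h4 (by positivity)
      have h6 : b x = (1 + s') ^ (-q) := rfl
      rw [h6]
      linarith
    simp only [hW']
    constructor
    · rw [mul_comm]
      exact mul_le_mul' le_rfl (ENNReal.ofReal_le_ofReal hlow)
    · rw [mul_comm]
      exact mul_le_mul' (ENNReal.ofReal_le_ofReal hup) le_rfl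
  have hle := hmin W hWm hWmass hWloc
  -- the energy of a combination for the new potential
  have hPt : ∀ c : Fin k → ℝ, ∫⁻ x, W x * ‖lc c u x‖ₑ ^ 2 =
      ENNReal.ofReal (∫ x, (V x).toReal * b x * lc c u x ^ 2) := fun c =>
    lint_eq hb0 (hztop c) (hWc b _ hbm hbK c).1
  have hPt0 : ∀ c : Fin k → ℝ, 0 ≤ ∫ x, (V x).toReal * b x * lc c u x ^ 2 := by
    intro c
    refine integral_nonneg (fun x => ?_)
    have h1 : 0 ≤ (V x).toReal := ENNReal.toReal_nonneg
    have h2 := hb0 x
    positivity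
  have hPle : ∀ c : Fin k → ℝ, ∫ x, (V x).toReal * b x * lc c u x ^ 2 ≤
      Pm c - q * t * Bm c + C1 * t ^ 2 * Pm c := by
    intro c
    have h1 := hWc (fun _ => (1 : ℝ)) 1 measurable_const hone c
    have h2 := hWc (fun x => φ x - 1) (1 + M) hb1m hb1K c
    have h3 : Pm c - q * t * Bm c + C1 * t ^ 2 * Pm c =
        ∫ x, ((V x).toReal * (fun _ => (1 : ℝ)) x * lc c u x ^ 2 -
          q * t * ((V x).toReal * (φ x - 1) * lc c u x ^ 2)) +
          C1 * t ^ 2 * ((V x).toReal * (fun _ => (1 : ℝ)) x * lc c u x ^ 2) := by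
      have e1 : Integrable (fun x => q * t * ((V x).toReal * (φ x - 1) * lc c u x ^ 2)) :=
        h2.1.const_mul (q * t)
      have e2 : Integrable (fun x => C1 * t ^ 2 *
          ((V x).toReal * (fun _ => (1 : ℝ)) x * lc c u x ^ 2)) := h1.1.const_mul (C1 * t ^ 2)
      have e3 : Integrable (fun x => (V x).toReal * (fun _ => (1 : ℝ)) x * lc c u x ^ 2 -
          q * t * ((V x).toReal * (φ x - 1) * lc c u x ^ 2)) := h1.1.sub e1
      rw [integral_add e3 e2, integral_sub h1.1 e1, integral_const_mul, integral_const_mul,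
        h1.2, h2.2]
    rw [h3]
    refine integral_mono (hWc b _ hbm hbK c).1
      ((h1.1.sub (h2.1.const_mul (q * t))).add (h1.1.const_mul (C1 * t ^ 2))) (fun x => ?_)
    simp only
    have h4 : 0 ≤ (V x).toReal * lc c u x ^ 2 :=
      mul_nonneg ENNReal.toReal_nonneg (sq_nonneg _)
    have h5 := mul_le_mul_of_nonneg_right (hbup x) h4
    nlinarith
  have hEn : ∀ c : Fin k → ℝ, (∑ i, ∑ j, c i * c j * ∫ x, inner ℝ (g i x) (g j x)) +
      ∫ x, (V x).toReal * b x * lc c u x ^ 2 ≤ (L - s) * ∑ i, c i ^ 2 := by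
    intro c
    have h1 := hPle c
    have h2 := hNN c
    have h3 := hts c
    have h4 := (hG c).2
    have h5 : (∑ i, ν i * c i ^ 2) ≤ L * ∑ i, c i ^ 2 := by
      rw [Finset.mul_sum]
      exact Finset.sum_le_sum (fun i _ => mul_le_mul_of_nonneg_right (hE.le i) (sq_nonneg _))
    have h6 : (∑ i, (L - ν i) * c i ^ 2) = L * (∑ i, c i ^ 2) - ∑ i, ν i * c i ^ 2 := by
      rw [Finset.mul_sum, ← Finset.sum_sub_distrib]
      exact Finset.sum_congr rfl (fun i _ => by ring)
    have h7 : Pm c ≤ L * ∑ i, c i ^ 2 := by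
      have : Pm c = (∑ i, ν i * c i ^ 2) -
          ∑ i, ∑ j, c i * c j * ∫ x, inner ℝ (g i x) (g j x) := by
        rw [← h2]
        simp only [hPm]
        ring
      linarith
    have h8 : C1 * t ^ 2 * Pm c ≤ C1 * t ^ 2 * (L * ∑ i, c i ^ 2) :=
      mul_le_mul_of_nonneg_left h7 (by positivity)
    have h9 : Pm c = (∑ i, ν i * c i ^ 2) -
        ∑ i, ∑ j, c i * c j * ∫ x, inner ℝ (g i x) (g j x) := by
      rw [← h2]
      simp only [hPm]
      ring
    rw [h6] at h3
    linarith
  have hLs : 0 ≤ L - s := by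
    have h1 := hEn (fun _ => 1)
    have h2 := (hG (fun _ => 1)).2
    have h3 := hPt0 (fun _ => 1)
    have h4 : (∑ i : Fin k, (fun _ => (1 : ℝ)) i ^ 2) = k := by simp
    rw [h4] at h1
    have h5 : (0 : ℝ) < k := by exact_mod_cast hk
    have h6 : 0 ≤ (L - s) * k := by linarith
    by_contra h7
    push Not at h7
    have := mul_neg_of_neg_of_pos h7 h5
    linarith
  have hlamW : lam k W ≤ ENNReal.ofReal (L - s) := by
    refine sInf_le ⟨u, g, ?_, ?_, ?_⟩
    · intro i
      refine ⟨(hE.inH i).mu, (hE.inH i).mg, (hE.inH i).wg, ?_⟩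
      have h1 : Integrable (fun x => (V x).toReal * b x * u i x ^ 2) := by
        have := hW b _ hbm hbK i i
        simpa [pow_two] using this
      have h2 := lint_eq hb0 (ae_top hVm (hum i) (huf i)) h1
      rw [h2]
      exact ENNReal.ofReal_lt_top
    · intro c hc
      rw [hR c]
      have : 0 < ∑ i, c i ^ 2 := by
        obtain ⟨i, hi⟩ := Function.ne_iff.1 hc
        exact Finset.sum_pos' (fun i _ => sq_nonneg _) ⟨i, Finset.mem_univ i, by
          have : c i ≠ 0 := hi
          positivity⟩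
      simpa using this
    · intro c
      rw [hR c, ← ENNReal.ofReal_mul hLs]
      unfold energy
      rw [(hG c).1, hPt c, ← ENNReal.ofReal_add (hG c).2 (hPt0 c)]
      exact ENNReal.ofReal_le_ofReal (hEn c)
  have hfin := hle.trans hlamW
  rw [hlam, ENNReal.ofReal_le_ofReal_iff hLs] at hfin
  linarith

end Pool.Agent.Y315.OP
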