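import Pool.Agent.Y315.OP.Main
import Pool.Agent.Y315.OP.PertLoc
import Pool.Agent.Y486.OP.Inf
import Pool.Agent.Y310.OP.Dead

/-!
# Structure of local minimizers
-/

set_option autoImplicit false

open MeasureTheory Filter Topology
open scoped ContDiff ENNReal

namespace Pool.Agent.Y315.OP

variable {d : ℕ}

/-- the eigenvalue depends only on the class of the potential -/
lemma lam_congr (k : ℕ) {V V' : E d → ℝ≥0∞} (h : V =ᵐ[volume] V') : lam k V = lam k V' := by
  have key : ∀ {V V' : E d → ℝ≥0∞}, V =ᵐ[volume] V' → lam k V' ≤ lam k V := by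
    intro V V' h
    apply le_sInf
    rintro L ⟨u, g, h1, h2, h3⟩
    have e : ∀ w : E d → ℝ, ∫⁻ x, V' x * ‖w x‖ₑ ^ 2 = ∫⁻ x, V x * ‖w x‖ₑ ^ 2 := by
      intro w
      refine lintegral_congr_ae ?_
      filter_upwards [h] with x hx
      rw [hx]
    apply sInf_le
    refine ⟨u, g, fun i => ⟨(h1 i).mu, (h1 i).mg, (h1 i).wg, ?_⟩, h2, fun c => ?_⟩
    · rw [e]
      exact (h1 i).fin
    · have := h3 c
      unfold energy at this ⊢
      rw [e]
      exact this
  exact le_antisymm (key h.symm) (key h)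

lemma mass_congr (p : ℝ) {V V' : E d → ℝ≥0∞} (h : V =ᵐ[volume] V') : mass p V = mass p V' := by
  refine lintegral_congr_ae ?_
  filter_upwards [h] with x hx
  rw [hx]

/-- the structure of local minimizers, Borel version -/
theorem structure_loc (hEIG : S_EIG) (hSEP : S_SEP) (hDIST : S_DIST)
    (hDEAD : S_DEAD) (d : ℕ) (p : ℝ) (k : ℕ) (hd : 1 ≤ d) (hp : 0 < p) (hk : 1 ≤ k) (ε : ℝ)
    (hε : 0 < ε) (V : E d → ℝ≥0∞) (hV : LocOptimal p k ε V) (hlt : lam k V < ⊤) :
    (∃ R : ℝ, ∀ᵐ x : E d, V x < ⊤ → ‖x‖ ≤ R) ∧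
    (∃ δ : ℝ, 0 < δ ∧ ∀ᵐ x : E d, ENNReal.ofReal δ ≤ V x) ∧
    ∃ (κ : ℝ) (w : Fin k → E d → ℝ) (G : Fin k → E d → E d), 0 < κ ∧
      (∀ l, InH V (w l) (G l)) ∧ (∀ l, Eig V (lam k V).toReal (w l) (G l)) ∧
      ∀ᵐ x : E d, V x =
        (ENNReal.ofReal κ / ENNReal.ofReal (∑ l, w l x ^ 2)) ^ (1 / (p + 1)) := by
  have hL0 : 0 ≤ (lam k V).toReal := ENNReal.toReal_nonneg
  have hLe : lam k V = ENNReal.ofReal (lam k V).toReal := (ENNReal.ofReal_toReal hlt.ne).symm
  generalize (lam k V).toReal = L at hL0 hLe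
  have hm : mass p V < ⊤ := hV.2.1.trans_lt ENNReal.one_lt_top
  obtain ⟨u, g, ν, hS⟩ := hEIG d p k V L hd hp hV.1 hm hL0 hLe
  obtain ⟨B, κ, hκ, hB, hae⟩ := hSEP d p k V L hd hp hV.1 hV.2.1 u g ν hS
    (fun φ M h1 h2 h3 h4 => pert_loc d p k V L ε hp hk hε hV hL0 hLe u g ν hS φ M h1 h2 h3 h4)
  have hInH : ∀ l, InH V (lc (B l) u) (lcg (B l) g) := fun l => InH.lc hV.1 hS.inH (B l)
  have hEig : ∀ l, Eig V L (lc (B l) u) (lcg (B l) g) := fun l =>
    Eig.lc hV.1 hS.inH hS.eig (B l) (hB l)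
  obtain ⟨hint, hdist⟩ := hDIST d p k V L κ hd hp hV.1 hκ (fun l => lc (B l) u)
    (fun l => lcg (B l) g) hInH hEig hae
  have hρ0 : ∀ x : E d, 0 ≤ ∑ l, lc (B l) u x ^ 2 := fun x =>
    Finset.sum_nonneg fun l _ => sq_nonneg _
  -- the set where the potential is infinite
  have htop : ∀ᵐ x : E d, V x = ⊤ → ∑ l, lc (B l) u x ^ 2 = 0 := by
    have h1 : ∀ l, ∀ᵐ x : E d, V x = ⊤ → lc (B l) u x = 0 := fun l =>
      Pool.Agent.Y291.OP.ae_top hV.1 (hInH l).mu.aestronglyMeasurable (hInH l).fin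
    filter_upwards [ae_all_iff.2 h1] with x hx hxV
    exact Finset.sum_eq_zero fun l _ => by rw [hx l hxV]; ring
  -- the formula
  have hform : ∀ᵐ x : E d, V x =
      (ENNReal.ofReal κ / ENNReal.ofReal (∑ l, lc (B l) u x ^ 2)) ^ (1 / (p + 1)) := by
    filter_upwards [hae, htop] with x hx hxt
    have hκ' : ENNReal.ofReal κ ≠ 0 := by simpa using hκ
    rcases eq_or_ne (V x) ⊤ with hV1 | hV1
    · rw [hxt hV1, hV1, ENNReal.ofReal_zero, ENNReal.div_zero hκ', ENNReal.top_rpow_of_pos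
        (by positivity)]
    · have h := hx hV1
      have hV0 : V x ≠ 0 := by
        intro h0
        rw [h0, zero_mul, ENNReal.zero_rpow_of_neg (by linarith), ENNReal.mul_top hκ'] at h
        exact ENNReal.zero_ne_top h
      have hρ1 : ENNReal.ofReal (∑ l, lc (B l) u x ^ 2) ≠ 0 := by
        intro h0
        rw [h0, mul_zero, eq_comm, mul_eq_zero] at h
        rcases h with h | h
        · exact hκ' h
        · rcases (ENNReal.rpow_eq_zero_iff.1 h) with h | h
          · exact hV0 h.1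
          · exact hV1 h.1
      have h2 : ENNReal.ofReal κ / ENNReal.ofReal (∑ l, lc (B l) u x ^ 2) = V x ^ (p + 1) := by
        symm
        rw [ENNReal.eq_div_iff hρ1 ENNReal.ofReal_ne_top]
        symm
        calc ENNReal.ofReal κ = ENNReal.ofReal κ * (V x ^ (-p) * V x ^ p) := by
              rw [← ENNReal.rpow_add _ _ hV0 hV1]
              simp
          _ = (V x * ENNReal.ofReal (∑ l, lc (B l) u x ^ 2)) * V x ^ p := by
              rw [h]
              ring
          _ = ENNReal.ofReal (∑ l, lc (B l) u x ^ 2) * V x ^ (p + 1) := by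
              rw [ENNReal.rpow_add _ _ hV0 hV1, ENNReal.rpow_one]
              ring
      rw [h2, ← ENNReal.rpow_mul, mul_one_div_cancel (by positivity), ENNReal.rpow_one]
  refine ⟨?_, ?_, κ, fun l => lc (B l) u, fun l => lcg (B l) g, hκ, hInH, hEig, hform⟩
  · obtain ⟨R, hR⟩ := hDEAD d (fun x => ∑ l, lc (B l) u x ^ 2) (2 * κ ^ (1 / (p + 1)))
      (p / (p + 1)) (2 * L) hd (by positivity) (by positivity)
      (by rw [div_lt_one (by positivity)]; linarith) (by positivity) hint hρ0 hdist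
    refine ⟨R, ?_⟩
    filter_upwards [hR, hform] with x hx hxV hxt
    by_contra hxR
    push Not at hxR
    rw [hxV, hx hxR, ENNReal.ofReal_zero, ENNReal.div_zero (by simpa using hκ),
      ENNReal.top_rpow_of_pos (by positivity)] at hxt
    exact lt_irrefl _ hxt
  · -- boundedness of the sum of the squares
    have hsub : Pool.Agent.Y486.OP.Sub (fun x => ∑ l, lc (B l) u x ^ 2) (2 * L) := by
      intro η hη hη0
      have h1 := hdist η hη hη0
      have hp1 : p / (p + 1) < 1 := by rw [div_lt_one (by positivity)]; linarith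
      have i1 := Pool.Agent.Y310.OP.int_mul hint hη.1.continuous hη.2
      have i2 := Pool.Agent.Y310.OP.int_mul hint (Pool.Agent.Y310.OP.cont_lap hη)
        (Pool.Agent.Y310.OP.supp_lap hη)
      have i3 := Pool.Agent.Y310.OP.int_pow hint hρ0 (by positivity : 0 < p / (p + 1)) hp1
        hη.1.continuous hη.2
      have e2 : ∀ x, (2 * κ ^ (1 / (p + 1)) * (∑ l, lc (B l) u x ^ 2) ^ (p / (p + 1)) -
          2 * L * ∑ l, lc (B l) u x ^ 2) * η x =
          2 * κ ^ (1 / (p + 1)) * ((∑ l, lc (B l) u x ^ 2) ^ (p / (p + 1)) * η x) -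
          2 * L * ((∑ l, lc (B l) u x ^ 2) * η x) := fun x => by ring
      rw [integral_congr_ae (ae_of_all _ e2), integral_sub (i3.const_mul _) (i1.const_mul _),
        integral_const_mul, integral_const_mul] at h1
      have e3 : ∀ x, (∑ l, lc (B l) u x ^ 2) * (lap η x + 2 * L * η x) =
          (∑ l, lc (B l) u x ^ 2) * lap η x + 2 * L * ((∑ l, lc (B l) u x ^ 2) * η x) :=
        fun x => by ring
      rw [integral_congr_ae (ae_of_all _ e3), integral_add i2 (i1.const_mul _),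
        integral_const_mul]
      have h2 : 0 ≤ ∫ x, (∑ l, lc (B l) u x ^ 2) ^ (p / (p + 1)) * η x :=
        integral_nonneg fun x => mul_nonneg (Real.rpow_nonneg (hρ0 x) _) (hη0 x)
      have h3 : 0 ≤ 2 * κ ^ (1 / (p + 1)) := by positivity
      have h4 := mul_nonneg h3 h2
      linarith
    have hb := Pool.Agent.Y486.OP.ae_bound (by positivity : (0:ℝ) ≤ 2 * L) hint hρ0 hsub
    obtain ⟨M, hM0, hM⟩ : ∃ M : ℝ, 0 < M ∧ ∀ᵐ x : E d, ∑ l, lc (B l) u x ^ 2 ≤ M := by
      have hcd := Pool.Agent.Y486.OP.cd_pos d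
      refine ⟨Real.exp (2 * L / 2) * (∫ x, ∑ l, lc (B l) u x ^ 2) / Pool.Agent.Y486.OP.cd d + 1,
        ?_, ?_⟩
      · have : 0 ≤ ∫ x, ∑ l, lc (B l) u x ^ 2 := integral_nonneg hρ0
        positivity
      · filter_upwards [hb] with x hx
        have h1 : Pool.Agent.Y486.OP.Fr (fun x => ∑ l, lc (B l) u x ^ 2) x 1 ≤
            ∫ x, ∑ l, lc (B l) u x ^ 2 := by
          unfold Pool.Agent.Y486.OP.Fr
          refine integral_mono (Pool.Agent.Y486.OP.gk_int hint x one_pos) hint fun y => ?_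
          simp only [one_pow, div_one]
          exact mul_le_of_le_one_right (hρ0 y) (Pool.Agent.Y486.OP.W_le_one _)
        have h2 : Pool.Agent.Y486.OP.cd d * ∑ l, lc (B l) u x ^ 2 ≤
            Real.exp (2 * L / 2) * ∫ x, ∑ l, lc (B l) u x ^ 2 :=
          hx.trans (mul_le_mul_of_nonneg_left h1 (Real.exp_pos _).le)
        have h3 : ∑ l, lc (B l) u x ^ 2 ≤
            Real.exp (2 * L / 2) * (∫ x, ∑ l, lc (B l) u x ^ 2) / Pool.Agent.Y486.OP.cd d := by
          rw [le_div_iff₀ hcd]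
          linarith
        linarith
    refine ⟨(κ / M) ^ (1 / (p + 1)), by positivity, ?_⟩
    filter_upwards [hform, hM] with x hx hxM
    rw [hx, ← ENNReal.ofReal_rpow_of_pos (by positivity), ENNReal.ofReal_div_of_pos hM0]
    exact ENNReal.rpow_le_rpow (ENNReal.div_le_div le_rfl (ENNReal.ofReal_le_ofReal hxM))
      (by positivity)

end Pool.Agent.Y315.OP
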