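import Pool.Agent.Y315.OP.Stm

/-!
# Optimal potentials for Schroedinger eigenvalues: assembly
-/

set_option autoImplicit false

open MeasureTheory Filter Topology
open scoped ContDiff ENNReal

namespace Pool.Agent.Y315.OP

variable {d k : ℕ}

/-- products of two functions of `L²(V)` are integrable -/
lemma integrable_Vmul {V : E d → ℝ≥0∞} (hV : Measurable V) {u φ : E d → ℝ}
    (hu : AEStronglyMeasurable u) (hφ : AEStronglyMeasurable φ)
    (fu : ∫⁻ x, V x * ‖u x‖ₑ ^ 2 < ⊤) (fφ : ∫⁻ x, V x * ‖φ x‖ₑ ^ 2 < ⊤) :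
    Integrable (fun x => (V x).toReal * (u x * φ x)) := by
  refine ⟨(hV.ennreal_toReal.aestronglyMeasurable).mul (hu.mul hφ), ?_⟩
  have key : ∀ x, ‖(V x).toReal * (u x * φ x)‖ₑ ≤ V x * ‖u x‖ₑ ^ 2 + V x * ‖φ x‖ₑ ^ 2 := by
    intro x
    have h1 : ‖(V x).toReal‖ₑ ≤ V x := by
      rw [Real.enorm_eq_ofReal ENNReal.toReal_nonneg]
      exact ENNReal.ofReal_toReal_le
    have h2 : ‖u x‖ₑ * ‖φ x‖ₑ ≤ ‖u x‖ₑ ^ 2 + ‖φ x‖ₑ ^ 2 := by
      rcases le_total ‖u x‖ₑ ‖φ x‖ₑ with h | h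
      · calc ‖u x‖ₑ * ‖φ x‖ₑ ≤ ‖φ x‖ₑ * ‖φ x‖ₑ := by gcongr
          _ = ‖φ x‖ₑ ^ 2 := by ring
          _ ≤ _ := le_add_self
      · calc ‖u x‖ₑ * ‖φ x‖ₑ ≤ ‖u x‖ₑ * ‖u x‖ₑ := by gcongr
          _ = ‖u x‖ₑ ^ 2 := by ring
          _ ≤ _ := le_self_add
    calc ‖(V x).toReal * (u x * φ x)‖ₑ = ‖(V x).toReal‖ₑ * (‖u x‖ₑ * ‖φ x‖ₑ) := by
          rw [enorm_mul, enorm_mul]
      _ ≤ V x * (‖u x‖ₑ ^ 2 + ‖φ x‖ₑ ^ 2) := by gcongr
      _ = _ := by ring
  unfold HasFiniteIntegral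
  calc ∫⁻ x, ‖(V x).toReal * (u x * φ x)‖ₑ
      ≤ ∫⁻ x, (V x * ‖u x‖ₑ ^ 2 + V x * ‖φ x‖ₑ ^ 2) := lintegral_mono key
    _ = (∫⁻ x, V x * ‖u x‖ₑ ^ 2) + ∫⁻ x, V x * ‖φ x‖ₑ ^ 2 :=
        lintegral_add_left' (hV.aemeasurable.mul (hu.enorm.pow_const 2)) _
    _ < ⊤ := ENNReal.add_lt_top.2 ⟨fu, fφ⟩

lemma integrable_inner {f g : E d → E d} (hf : MemLp f 2) (hg : MemLp g 2) :
    Integrable (fun x => inner ℝ (f x) (g x)) := by
  have h := MemLp.integrable_mul (p := 2) (q := 2) hf.norm hg.norm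
  refine h.mono' (AEStronglyMeasurable.inner (𝕜 := ℝ) hf.1 hg.1) (ae_of_all _ fun x => ?_)
  simpa using norm_inner_le_norm (𝕜 := ℝ) (f x) (g x)

lemma memLp_tf {φ : E d → ℝ} (hφ : TF φ) : MemLp φ 2 :=
  hφ.1.continuous.memLp_of_hasCompactSupport hφ.2

lemma memLp_tf_fderiv {φ : E d → ℝ} (hφ : TF φ) (v : E d) : MemLp (fun x => fderiv ℝ φ x v) 2 := by
  have h1 : Continuous (fun x => fderiv ℝ φ x v) :=
    (hφ.1.continuous_fderiv (by simp)).clm_apply continuous_const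
  have h2 : HasCompactSupport (fun x => fderiv ℝ φ x v) := hφ.2.fderiv_apply (𝕜 := ℝ) v
  exact h1.memLp_of_hasCompactSupport h2

lemma InH.lc {V : E d → ℝ≥0∞} (hV : Measurable V) {u : Fin k → E d → ℝ} {g : Fin k → E d → E d}
    (h : ∀ i, InH V (u i) (g i)) (c : Fin k → ℝ) : InH V (OP.lc c u) (lcg c g) := by
  refine ⟨?_, ?_, ?_, ?_⟩
  · exact memLp_finsetSum _ fun i _ => (h i).mu.const_mul (c i)
  · exact memLp_finsetSum _ fun i _ => (h i).mg.const_smul (c i)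
  · intro φ hφ v
    have h1 : ∀ i, Integrable (fun x => u i x * fderiv ℝ φ x v) := fun i =>
      MemLp.integrable_mul (p := 2) (q := 2) (h i).mu (memLp_tf_fderiv hφ v)
    have h2 : ∀ i, Integrable (fun x => inner ℝ (g i x) v * φ x) := fun i =>
      MemLp.integrable_mul (p := 2) (q := 2) ((h i).mg.inner_const v) (memLp_tf hφ)
    have e1 : ∀ x, OP.lc c u x * fderiv ℝ φ x v = ∑ i, c i * (u i x * fderiv ℝ φ x v) := by
      intro x
      simp only [OP.lc, Finset.sum_mul]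
      exact Finset.sum_congr rfl fun i _ => by ring
    have e2 : ∀ x, inner ℝ (lcg c g x) v * φ x = ∑ i, c i * (inner ℝ (g i x) v * φ x) := by
      intro x
      simp only [lcg, sum_inner, Finset.sum_mul, inner_smul_left]
      exact Finset.sum_congr rfl fun i _ => by simp; ring
    simp only [e1, e2]
    rw [integral_finsetSum _ fun i _ => (h1 i).const_mul (c i),
      integral_finsetSum _ fun i _ => (h2 i).const_mul (c i), ← Finset.sum_neg_distrib]
    refine Finset.sum_congr rfl fun i _ => ?_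
    rw [integral_const_mul, integral_const_mul, (h i).wg φ hφ v]
    ring
  · have key : ∀ x, V x * ‖OP.lc c u x‖ₑ ^ 2 ≤
        ∑ i, ENNReal.ofReal ((∑ j, c j ^ 2)) * (V x * ‖u i x‖ₑ ^ 2) := by
      intro x
      have h1 : OP.lc c u x ^ 2 ≤ (∑ j, c j ^ 2) * ∑ i, u i x ^ 2 := by
        simpa [OP.lc] using Finset.sum_mul_sq_le_sq_mul_sq Finset.univ c (fun i => u i x)
      have h2 : ∀ y : ℝ, ‖y‖ₑ ^ 2 = ENNReal.ofReal (y ^ 2) := by
        intro y
        rw [← ofReal_norm, ← ENNReal.ofReal_pow (norm_nonneg _), Real.norm_eq_abs, sq_abs]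
      have h0 : 0 ≤ ∑ j, c j ^ 2 := Finset.sum_nonneg fun j _ => sq_nonneg _
      calc V x * ‖OP.lc c u x‖ₑ ^ 2 ≤ V x * ENNReal.ofReal ((∑ j, c j ^ 2) * ∑ i, u i x ^ 2) := by
            rw [h2]
            gcongr
        _ = V x * (ENNReal.ofReal (∑ j, c j ^ 2) * ∑ i, ‖u i x‖ₑ ^ 2) := by
            rw [ENNReal.ofReal_mul h0,
              ENNReal.ofReal_sum_of_nonneg (f := fun i => u i x ^ 2) fun i _ => sq_nonneg _]
            simp only [h2]
        _ = _ := by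
            rw [← Finset.mul_sum, ← Finset.mul_sum]
            ring
    calc ∫⁻ x, V x * ‖OP.lc c u x‖ₑ ^ 2
        ≤ ∫⁻ x, ∑ i, ENNReal.ofReal ((∑ j, c j ^ 2)) * (V x * ‖u i x‖ₑ ^ 2) := lintegral_mono key
      _ = ∑ i, ∫⁻ x, ENNReal.ofReal ((∑ j, c j ^ 2)) * (V x * ‖u i x‖ₑ ^ 2) :=
          lintegral_finsetSum' _ fun i _ =>
            (hV.aemeasurable.mul ((h i).mu.1.enorm.pow_const 2)).const_mul _
      _ = ∑ i, ENNReal.ofReal ((∑ j, c j ^ 2)) * ∫⁻ x, (V x * ‖u i x‖ₑ ^ 2) := by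
          refine Finset.sum_congr rfl fun i _ => ?_
          rw [lintegral_const_mul' _ _ ENNReal.ofReal_ne_top]
      _ < ⊤ := by
          refine ENNReal.sum_lt_top.2 fun i _ => ?_
          exact ENNReal.mul_lt_top ENNReal.ofReal_lt_top (h i).fin

lemma Eig.lc {V : E d → ℝ≥0∞} (hV : Measurable V) {u : Fin k → E d → ℝ} {g : Fin k → E d → E d}
    (h : ∀ i, InH V (u i) (g i)) {ν : Fin k → ℝ} (he : ∀ i, Eig V (ν i) (u i) (g i)) {L : ℝ}
    (c : Fin k → ℝ) (hc : ∀ i, ν i ≠ L → c i = 0) : Eig V L (OP.lc c u) (lcg c g) := by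
  intro φ γ hφ
  have h1 : ∀ i, Integrable (fun x => inner ℝ (g i x) (γ x)) := fun i =>
    integrable_inner (h i).mg hφ.mg
  have h2 : ∀ i, Integrable (fun x => (V x).toReal * (u i x * φ x)) := fun i =>
    integrable_Vmul hV (h i).mu.1 hφ.mu.1 (h i).fin hφ.fin
  have h3 : ∀ i, Integrable (fun x => u i x * φ x) := fun i =>
    MemLp.integrable_mul (p := 2) (q := 2) (h i).mu hφ.mu
  have e1 : ∀ x, inner ℝ (lcg c g x) (γ x) = ∑ i, c i * inner ℝ (g i x) (γ x) := by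
    intro x
    simp only [lcg, sum_inner, inner_smul_left]
    exact Finset.sum_congr rfl fun i _ => by simp
  have e2 : ∀ x, (V x).toReal * (OP.lc c u x * φ x) =
      ∑ i, c i * ((V x).toReal * (u i x * φ x)) := by
    intro x
    simp only [OP.lc, Finset.sum_mul, Finset.mul_sum]
    exact Finset.sum_congr rfl fun i _ => by ring
  have e3 : ∀ x, OP.lc c u x * φ x = ∑ i, c i * (u i x * φ x) := by
    intro x
    simp only [OP.lc, Finset.sum_mul]
    exact Finset.sum_congr rfl fun i _ => by ring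
  rw [integral_congr_ae (ae_of_all _ e1), integral_congr_ae (ae_of_all _ e2),
    integral_congr_ae (ae_of_all _ e3), integral_finsetSum _ fun i _ => (h1 i).const_mul (c i),
    integral_finsetSum _ fun i _ => (h2 i).const_mul (c i),
    integral_finsetSum _ fun i _ => (h3 i).const_mul (c i), ← Finset.sum_add_distrib,
    Finset.mul_sum]
  refine Finset.sum_congr rfl fun i _ => ?_
  rw [integral_const_mul, integral_const_mul, integral_const_mul]
  by_cases hi : ν i = L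
  · have := he i φ γ hφ
    rw [hi] at this
    linear_combination c i * this
  · simp [hc i hi]

/-- **Assembly.** -/
theorem main_of (hFIN : S_FIN) (hEIG : S_EIG) (hPERT : S_PERT) (hSEP : S_SEP) (hDIST : S_DIST)
    (hDEAD : S_DEAD) : S_MAIN := by
  intro d p k hd hp hk V hV
  obtain ⟨W, hWm, hW1, hWf⟩ := hFIN d p k hd hp
  have hlt : lam k V < ⊤ := (hV.2.2 W hWm hW1).trans_lt hWf
  have hL0 : 0 ≤ (lam k V).toReal := ENNReal.toReal_nonneg
  have hLe : lam k V = ENNReal.ofReal (lam k V).toReal := (ENNReal.ofReal_toReal hlt.ne).symm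
  generalize (lam k V).toReal = L at hL0 hLe
  have hm : mass p V < ⊤ := hV.2.1.trans_lt ENNReal.one_lt_top
  obtain ⟨u, g, ν, hS⟩ := hEIG d p k V L hd hp hV.1 hm hL0 hLe
  obtain ⟨B, κ, hκ, hB, hae⟩ := hSEP d p k V L hd hp hV.1 hV.2.1 u g ν hS
    (hPERT d p k V L hd hp hk hV hL0 hLe u g ν hS)
  have hInH : ∀ l, InH V (lc (B l) u) (lcg (B l) g) := fun l => InH.lc hV.1 hS.inH (B l)
  have hEig : ∀ l, Eig V L (lc (B l) u) (lcg (B l) g) := fun l =>
    Eig.lc hV.1 hS.inH hS.eig (B l) (hB l)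
  obtain ⟨hint, hdist⟩ := hDIST d p k V L κ hd hp hV.1 hκ (fun l => lc (B l) u)
    (fun l => lcg (B l) g) hInH hEig hae
  obtain ⟨R, hR⟩ := hDEAD d (fun x => ∑ l, lc (B l) u x ^ 2) (2 * κ ^ (1 / (p + 1)))
    (p / (p + 1)) (2 * L) hd (by positivity) (by positivity)
    (by rw [div_lt_one (by positivity)]; linarith) (by positivity) hint
    (fun x => Finset.sum_nonneg fun l _ => sq_nonneg _) hdist
  refine ⟨R, ?_⟩
  filter_upwards [hR, hae] with x hx hxV hxR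
  by_contra hne
  have h := hxV hne
  rw [hx hxR, ENNReal.ofReal_zero, mul_zero, eq_comm, mul_eq_zero] at h
  rcases h with h | h
  · rw [ENNReal.ofReal_eq_zero] at h
    linarith
  · rcases (ENNReal.rpow_eq_zero_iff.1 h) with h | h
    · linarith [h.2]
    · exact hne h.1

end Pool.Agent.Y315.OP
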